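import Mathlib

/-!
# Phragmén–Lindelöf in a long rectangle
-/

set_option autoImplicit false

open Complex Filter Topology

namespace Pool.Agent.Helper82.AL

theorem pl_rect (G : ℂ → ℂ) (hG : Differentiable ℂ G) (L a η η' δ H R : ℝ) (hL : 0 ≤ L)
    (hδ : 0 ≤ δ) (hR : 0 ≤ R) (hH : R < H) (ha : 0 ≤ a) (hη' : 0 ≤ η')
    (hgrow : ∀ w : ℂ, ‖G w‖ ≤ Real.exp (L * (1 / 2 + |w.im| / 2 + η' * (1 + ‖w‖ ^ 2))))
    (htop : ∀ w : ℂ, |w.re| ≤ H → w.im = 10 → ‖G w‖ ≤ Real.exp (L * (w.im / 2 + η')))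
    (hbot : ∀ s : ℝ, |s| ≤ H → ‖G s‖ ≤ Real.exp (L * (a + η')))
    (h1 : η' * (101 + H ^ 2) + 100 * δ ≤ η) (h2 : 1 / 2 ≤ δ * (H - R) ^ 2)
    (w₀ : ℂ) (h : |w₀.re| ≤ R) (h0 : 0 ≤ w₀.im) (h10 : w₀.im ≤ 10) :
    ‖G w₀‖ ≤ Real.exp (L * (a + w₀.im / 2 + η)) := by
  have hHp : 0 < H := lt_of_le_of_lt hR hH
  set s₀ : ℝ := w₀.re with hs₀
  let F : ℂ → ℂ := fun w => G w * exp (I * L * w / 2 - L * δ * (w - s₀) ^ 2)
  have hre : ∀ w : ℂ, (I * L * w / 2 - L * δ * (w - s₀) ^ 2).re =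
      L * (-(w.im / 2) - δ * ((w.re - s₀) ^ 2 - w.im ^ 2)) := by
    intro w
    have e1 : (I * L * w / 2 - L * δ * (w - s₀) ^ 2) =
        ((L * (-(w.im / 2) - δ * ((w.re - s₀) ^ 2 - w.im ^ 2)) : ℝ) : ℂ) +
        ((L * (w.re / 2 - 2 * δ * (w.re - s₀) * w.im) : ℝ) : ℂ) * I := by
      conv_lhs => rw [← re_add_im w]
      push_cast
      linear_combination (L * (w.im : ℂ) / 2 - L * δ * (w.im : ℂ) ^ 2) * I_sq
    rw [e1, add_re, ofReal_re, mul_re, ofReal_re, ofReal_im, I_re, I_im]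
    ring
  have hF : ∀ w, ‖F w‖ = ‖G w‖ * Real.exp (L * (-(w.im / 2) - δ * ((w.re - s₀) ^ 2 - w.im ^ 2))) := by
    intro w
    change ‖G w * exp _‖ = _
    rw [norm_mul, norm_exp, hre]
  have hFd : Differentiable ℂ F := by
    intro w
    exact (hG w).mul (by fun_prop)
  let U : Set ℂ := Set.Ioo (-H) H ×ℂ Set.Ioo 0 10
  have hneH : (-H) ≠ H := by linarith
  have hUb : Bornology.IsBounded U :=
    (Metric.isBounded_Ioo _ _).reProdIm (Metric.isBounded_Ioo _ _)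
  have key : ‖F w₀‖ ≤ Real.exp (L * (a + η)) := by
    refine norm_le_of_forall_mem_frontier_norm_le hUb hFd.diffContOnCl ?_ ?_
    · intro w hw
      rw [frontier_reProdIm, closure_Ioo hneH, closure_Ioo (by norm_num),
        frontier_Ioo (show -H < H by linarith), frontier_Ioo (show (0 : ℝ) < 10 by norm_num)] at hw
      rw [hF]
      rcases hw with ⟨hx, hy⟩ | ⟨hx, hy⟩
      · have hxH : |w.re| ≤ H := abs_le.2 ⟨hx.1, hx.2⟩
        rcases hy with hy | hy
        · have hy0 : w.im = 0 := hy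
          have hw : w = (w.re : ℂ) := by
            apply Complex.ext
            · rw [ofReal_re]
            · rw [ofReal_im, hy0]
          have hb := hbot w.re hxH
          rw [← hw] at hb
          calc ‖G w‖ * Real.exp (L * (-(w.im / 2) - δ * ((w.re - s₀) ^ 2 - w.im ^ 2)))
              ≤ Real.exp (L * (a + η')) *
                Real.exp (L * (-(w.im / 2) - δ * ((w.re - s₀) ^ 2 - w.im ^ 2))) := by gcongr
            _ ≤ Real.exp (L * (a + η)) := by
              rw [← Real.exp_add, ← mul_add]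
              apply Real.exp_le_exp.2
              apply mul_le_mul_of_nonneg_left _ hL
              rw [hy0]
              nlinarith [mul_nonneg hδ (sq_nonneg (w.re - s₀)), mul_nonneg hη' (sq_nonneg H)]
        · have hy0 : w.im = 10 := hy
          have hb := htop w hxH hy0
          calc ‖G w‖ * Real.exp (L * (-(w.im / 2) - δ * ((w.re - s₀) ^ 2 - w.im ^ 2)))
              ≤ Real.exp (L * (w.im / 2 + η')) *
                Real.exp (L * (-(w.im / 2) - δ * ((w.re - s₀) ^ 2 - w.im ^ 2))) := by gcongr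
            _ ≤ Real.exp (L * (a + η)) := by
              rw [← Real.exp_add, ← mul_add]
              apply Real.exp_le_exp.2
              apply mul_le_mul_of_nonneg_left _ hL
              rw [hy0]
              nlinarith [mul_nonneg hδ (sq_nonneg (w.re - s₀)), mul_nonneg hη' (sq_nonneg H)]
      · have hyi : 0 ≤ w.im ∧ w.im ≤ 10 := hy
        have hb := hgrow w
        have hn : ‖w‖ ^ 2 = H ^ 2 + w.im ^ 2 := by
          rw [← normSq_eq_norm_sq, normSq_apply]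
          rcases hx with hx | hx
          · have : w.re = -H := hx
            rw [this]; ring
          · have : w.re = H := hx
            rw [this]; ring
        have hxs : (H - R) ^ 2 ≤ (w.re - s₀) ^ 2 := by
          have hs := abs_le.1 h
          rcases hx with hx | hx
          · have : w.re = -H := hx
            rw [this]
            nlinarith
          · have : w.re = H := hx
            rw [this]
            nlinarith
        rw [abs_of_nonneg hyi.1, hn] at hb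
        calc ‖G w‖ * Real.exp (L * (-(w.im / 2) - δ * ((w.re - s₀) ^ 2 - w.im ^ 2)))
            ≤ Real.exp (L * (1 / 2 + w.im / 2 + η' * (1 + (H ^ 2 + w.im ^ 2)))) *
              Real.exp (L * (-(w.im / 2) - δ * ((w.re - s₀) ^ 2 - w.im ^ 2))) := by gcongr
          _ ≤ Real.exp (L * (a + η)) := by
            rw [← Real.exp_add, ← mul_add]
            apply Real.exp_le_exp.2
            apply mul_le_mul_of_nonneg_left _ hL
            have hy2 : w.im ^ 2 ≤ 100 := by nlinarith [hyi.1, hyi.2]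
            have e1 : δ * (H - R) ^ 2 ≤ δ * (w.re - s₀) ^ 2 := mul_le_mul_of_nonneg_left hxs hδ
            have e2 : δ * w.im ^ 2 ≤ δ * 100 := mul_le_mul_of_nonneg_left hy2 hδ
            have e3 : η' * w.im ^ 2 ≤ η' * 100 := mul_le_mul_of_nonneg_left hy2 hη'
            nlinarith
    · have hs := abs_le.1 h
      change w₀ ∈ closure (Set.Ioo (-H) H ×ℂ Set.Ioo 0 10)
      rw [closure_reProdIm, closure_Ioo hneH, closure_Ioo (by norm_num)]
      exact ⟨⟨by change -H ≤ w₀.re; linarith, by change w₀.re ≤ H; linarith⟩, ⟨h0, h10⟩⟩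
  rw [hF] at key
  have hs0 : w₀.re - s₀ = 0 := by rw [hs₀]; ring
  rw [hs0] at key
  have h5 : ‖G w₀‖ = (‖G w₀‖ * Real.exp (L * (-(w₀.im / 2) - δ * (0 ^ 2 - w₀.im ^ 2)))) *
      Real.exp (L * (w₀.im / 2 - δ * w₀.im ^ 2)) := by
    rw [mul_assoc, ← Real.exp_add]
    have : L * (-(w₀.im / 2) - δ * (0 ^ 2 - w₀.im ^ 2)) + L * (w₀.im / 2 - δ * w₀.im ^ 2) = 0 := by
      ring
    rw [this, Real.exp_zero, mul_one]
  rw [h5]
  calc (‖G w₀‖ * Real.exp (L * (-(w₀.im / 2) - δ * (0 ^ 2 - w₀.im ^ 2)))) *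
      Real.exp (L * (w₀.im / 2 - δ * w₀.im ^ 2))
      ≤ Real.exp (L * (a + η)) * Real.exp (L * (w₀.im / 2 - δ * w₀.im ^ 2)) := by gcongr
    _ ≤ Real.exp (L * (a + w₀.im / 2 + η)) := by
      rw [← Real.exp_add, ← mul_add]
      apply Real.exp_le_exp.2
      apply mul_le_mul_of_nonneg_left _ hL
      nlinarith [mul_nonneg hδ (sq_nonneg w₀.im)]

theorem w1_core (G : ℕ → ℂ → ℂ) (L : ℕ → ℝ) (a : ℝ) (hlim : Tendsto L atTop atTop)
    (hent : ∀ j, Differentiable ℂ (G j)) (ha : 0 ≤ a)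
    (hgrow : ∀ η > 0, ∀ᶠ j in atTop, ∀ w : ℂ,
      ‖G j w‖ ≤ Real.exp (L j * (1 / 2 + |w.im| / 2 + η * (1 + ‖w‖ ^ 2))))
    (hside : ∀ η > 0, ∀ R : ℝ, ∀ᶠ j in atTop, ∀ w : ℂ, |w.re| ≤ R → 1 / 2 + η ≤ w.im →
      w.im ≤ 10 → ‖G j w‖ ≤ Real.exp (L j * (w.im / 2 + η)))
    (hline : ∀ η > 0, ∀ R : ℝ, ∀ᶠ j in atTop, ∀ s : ℝ, |s| ≤ R →
      ‖G j s‖ ≤ Real.exp (L j * (a + η))) :
    ∀ η > 0, ∀ R : ℝ, ∀ᶠ j in atTop, ∀ w : ℂ, |w.re| ≤ R → 0 ≤ w.im → w.im ≤ 10 →
    ‖G j w‖ ≤ Real.exp (L j * (a + w.im / 2 + η)) := by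
  intro η hη R
  obtain ⟨η₁, hη₁, hη₁1, hη₁η⟩ : ∃ η₁ : ℝ, 0 < η₁ ∧ η₁ ≤ 1 ∧ η₁ ≤ η :=
    ⟨min η 1, lt_min hη one_pos, min_le_right _ _, min_le_left _ _⟩
  set R' : ℝ := |R| with hR'
  have hR'0 : 0 ≤ R' := abs_nonneg R
  set δ : ℝ := η₁ / 200 with hδ
  have hδ0 : 0 < δ := by positivity
  set H : ℝ := R' + 1 + 1 / (2 * δ) with hH
  have hHR : R' < H := by
    have : 0 < 1 / (2 * δ) := by positivity
    linarith
  set η' : ℝ := η₁ / (2 * (101 + H ^ 2)) with hη'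
  have hη'0 : 0 < η' := by positivity
  have hη'e : η' * (101 + H ^ 2) = η₁ / 2 := by
    rw [hη']
    field_simp
  have hη'1 : η' ≤ 1 := by
    have : η' * 1 ≤ η' * (101 + H ^ 2) := by
      apply mul_le_mul_of_nonneg_left _ hη'0.le
      nlinarith [sq_nonneg H]
    linarith
  have h2 : 1 / 2 ≤ δ * (H - R') ^ 2 := by
    have e1 : H - R' = 1 + 1 / (2 * δ) := by rw [hH]; ring
    rw [e1]
    have e2 : δ * (1 + 1 / (2 * δ)) ^ 2 = δ + 1 + 1 / (4 * δ) := by
      field_simp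
      ring
    rw [e2]
    have : 0 < 1 / (4 * δ) := by positivity
    linarith
  filter_upwards [hlim.eventually_ge_atTop 0, hgrow η' hη'0, hside η' hη'0 H, hline η' hη'0 H]
    with j hL hg hs hl w hw h0 h10
  have h3 := pl_rect (G j) (hent j) (L j) a η₁ η' δ H R' hL hδ0.le hR'0 hHR ha hη'0.le hg
    (fun w hw hy => hs w hw (by rw [hy]; linarith) hy.le) hl (by rw [hη'e, hδ]; linarith) h2 w
    (hw.trans (le_abs_self R)) h0 h10
  refine h3.trans (Real.exp_le_exp.2 (mul_le_mul_of_nonneg_left ?_ hL))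
  linarith

end Pool.Agent.Helper82.AL
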