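import Pool.Agent.Helper75.AL.Sts
import Pool.Agent.Helper82.AL.W1c

/-!
# The abstract Phragmén–Lindelöf statement `St_W1`
-/

set_option autoImplicit false

open Complex Filter Topology

namespace Pool.Agent.Helper82.AL

open Pool.Agent.Helper75.AL

/-- W1. -/
theorem w1 : St_W1 := by
  intro G L a h ha _ hline η hη R
  refine w1_core G L a h.lim h.ent ha (fun η hη => ?_) (fun η hη R => ?_) hline η hη R
  · filter_upwards [h.ok η hη 0] with j hj w
    exact hj.grow w
  · filter_upwards [h.ok η hη R] with j hj w h1 h2 h3
    exact (hj.side w h1 h2 h3).2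

end Pool.Agent.Helper82.AL
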